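import Mathlib
import Pool.Agent.H659R3.CT.FinSimp
import Pool.Agent.H659R3.CT.EH
import Pool.Agent.H659R3.CT.TaskEHgen
import Pool.Agent.H659R3.CT.FillP
import Pool.Agent.H659R3.CT.TaskCommOf
import Pool.Agent.H659R3.CT.TaskPLOf
import Pool.Agent.H659R3.CT.TaskEPOf
import Pool.Agent.H659R3.CT.TaskCon
import Pool.Agent.H659R3.CT.TaskNull
import Pool.Agent.H659R3.CT.TaskContrOf
import Pool.Agent.H659R3.CT.BG
import Pool.Agent.H659R3.CT.TaskMap
import Pool.Agent.H659R3.CT.TaskNC2Of
import Pool.Agent.H659R3.CT.TaskModelOf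
import Pool.Agent.H659R3.CT.TaskStable
import Pool.Agent.H659R3.CT.FP
import Pool.Agent.H659R3.CT.Base
import Pool.Agent.H659R3.CT.HNN699
import Pool.Agent.H659R3.CT.TaskTriv
import Pool.Agent.H659R3.CT.KXOf
import Pool.Agent.H659R3.CT.TaskKLOf
import Pool.Agent.H659R3.CT.SqDom
import Pool.Agent.H659R3.CT.TaskGph
import Pool.Agent.H659R3.CT.TaskPoly
import Pool.Agent.H659R3.CT.TaskCyDom
import Pool.Agent.H659R3.CT.TaskDim
import Pool.Agent.H659R3.CT.Trans
import Pool.Agent.H659R3.CT.CompSimp
import Pool.Agent.H659R3.CT.TaskDisc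
import Pool.Agent.H659R3.CT.TaskCn
import Pool.Agent.H659R3.CT.TaskSqAB
import Pool.Agent.H659R3.CT.TaskPrism

/-! MP_4c90a8_lc, Q1, in the negative: no algorithm decides contractibility of finite simplicial
complexes of dimension at most three. `Rz K` is the geometric realization of the finite simplicial
complex whose simplices are the nonempty subsets of the sets listed in `K`. -/

set_option autoImplicit false

namespace Pool.Agent.Results.MP_4c90a8_lc.Simplicial

open Pool.Agent.H659R3.CT

theorem result :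
    ¬ ∃ f : List (List ℕ) → Bool, Computable f ∧
      ∀ K : List (List ℕ), (∀ s ∈ K, s.length ≤ 4) → (f K = true ↔ ContractibleSpace (Rz K)) := by
  have hM : TaskModel := taskModel taskHNN taskFP taskBase taskStable
  have hKL : TaskKL := taskKL taskDisc taskCn taskSqDom taskSqAB taskGph taskPoly taskTrans
  exact finalSimp
    (taskKX hKL taskDisc taskCn taskSqDom taskSqAB taskPoly taskTrans taskPrism taskCyDom)
    taskDim taskCompSimp taskTriv
    (taskContr taskNull (taskComm taskEHgen taskFill) (taskEP taskFill (taskPL taskEH)) taskCon)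
    (taskNC2 taskMap taskBG hM)

end Pool.Agent.Results.MP_4c90a8_lc.Simplicial
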